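import Pool.Agent.J4.H48.LPM.Logic

/-!
# The lattice path matroids are characterised by a sentence of the logic `MS_0`

The proof:

* A finite matroid `M` is a lattice path matroid iff its ground set has an order with the *order property*: a
  set `B` with `|B| = r(M)` is a base as soon as `|B ∩ L| ≤ r(L)` for all initial and all final segments `L`.
* Let `M` be connected with the order property, and let `a` and `b` be its first and last element. If a set `B`
  with `|B| = r(M)` violates the inequality for an initial segment, it violates it for an initial segment which
  is a flat `F` such that every element of `F` is in a common circuit with `a` inside `F`. All these flats are
  initial segments. The same holds for `b` and the final segments.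
* Conversely, suppose that in a connected matroid `M` the family of these flats for some `a` and the one for some
  `b` are chains, any two of their members are disjoint or cover `E(M)`, and that every basis exchange which
  leaves the set of bases is detected by one of these flats. Then `M` has the order property. All this can be
  said in `MS_0`.
* Lattice path matroids are closed under direct sums and restrictions to separators, and the connected
  components are definable in `MS_0`.
-/

set_option autoImplicit false

namespace Pool.Agent.Results.MP_b5ca43_co.Sentence

open Pool.Agent.J4.H48.LPM

universe u

/-- There is a sentence `φ` of `MS_0` such that a finite matroid `M` satisfies `φ` if and only if `M` is a lattice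
path matroid. -/
theorem result : ∃ φ : Fml 0, ∀ (α : Type u) (M : Matroid α), M.Finite →
    (Sat M φ (fun i => i.elim0) ↔ IsLatticePathMatroid M) :=
  ⟨Fml.lpm, fun _ _ h => by
    have := h
    exact sat_lpm _⟩

end Pool.Agent.Results.MP_b5ca43_co.Sentence
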